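import Pool.Agent.W247.ET.Stm

/-! # Project ET: recentering of the kernel sum, VC -/

set_option autoImplicit false

open Finset

namespace Pool.Agent.W369.ET

open Pool.Agent.W247.ET

/-- The discrete antiderivative of the kernel. -/
noncomputable def Fm (n m : ℝ) : ℝ := m * (m - n) / (4 * (n + m) ^ 3)

lemma step {a b : ℝ} (ha : 0 ≤ a) (hb : 0 ≤ b) :
    |3 / 2 * ((a + 1) * (b + 1)) / ((a + 1) + (b + 1)) ^ 4 - 1 / (4 * ((a + 1) + (b + 1)) ^ 2) -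
      (Fm (a + 1) (b + 1) - Fm (a + 1) b)| ≤ 1 / ((a + 1) + (b + 1)) ^ 3 := by
  have hs : 0 < a + b + 2 := by positivity
  have hs1 : 0 < a + b + 1 := by positivity
  have e0 : (a + 1) + (b + 1) = a + b + 2 := by ring
  have e1 : (a + 1) + b = a + b + 1 := by ring
  have e : 3 / 2 * ((a + 1) * (b + 1)) / ((a + 1) + (b + 1)) ^ 4 -
      1 / (4 * ((a + 1) + (b + 1)) ^ 2) - (Fm (a + 1) (b + 1) - Fm (a + 1) b) =
      -((b + 1) * (b - a) * (a + b + 2) * (a + b + 1) ^ 3 - b * (b - a - 1) * (a + b + 2) ^ 4 -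
        6 * (a + 1) * (b + 1) * (a + b + 1) ^ 3 + (a + b + 2) ^ 2 * (a + b + 1) ^ 3) /
        (4 * (a + b + 2) ^ 4 * (a + b + 1) ^ 3) := by
    unfold Fm
    rw [e0, e1]
    field_simp
    ring
  rw [e, abs_div, abs_neg, abs_of_pos (a := 4 * (a + b + 2) ^ 4 * (a + b + 1) ^ 3)
    (by positivity), div_le_iff₀ (by positivity), e0]
  have e2 : 1 / (a + b + 2) ^ 3 * (4 * (a + b + 2) ^ 4 * (a + b + 1) ^ 3) =
      4 * (a + b + 2) * (a + b + 1) ^ 3 := by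
    field_simp
  rw [e2, abs_le]
  constructor
  · rw [← sub_nonneg]
    have h : (b + 1) * (b - a) * (a + b + 2) * (a + b + 1) ^ 3 - b * (b - a - 1) * (a + b + 2) ^ 4 -
        6 * (a + 1) * (b + 1) * (a + b + 1) ^ 3 + (a + b + 2) ^ 2 * (a + b + 1) ^ 3 -
        -(4 * (a + b + 2) * (a + b + 1) ^ 3) =
      15 * a ^ 3 * b ^ 1 + 6 * a ^ 3 * b ^ 0 + 33 * a ^ 2 * b ^ 2 + 67 * a ^ 2 * b ^ 1 +
      18 * a ^ 2 * b ^ 0 + 21 * a ^ 1 * b ^ 3 + 84 * a ^ 1 * b ^ 2 + 90 * a ^ 1 * b ^ 1 +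
      18 * a ^ 1 * b ^ 0 + 3 * a ^ 0 * b ^ 4 + 23 * a ^ 0 * b ^ 3 + 50 * a ^ 0 * b ^ 2 +
      38 * a ^ 0 * b ^ 1 + 6 * a ^ 0 * b ^ 0 := by ring
    rw [h]
    positivity
  · rw [← sub_nonneg]
    have h : 4 * (a + b + 2) * (a + b + 1) ^ 3 -
        ((b + 1) * (b - a) * (a + b + 2) * (a + b + 1) ^ 3 - b * (b - a - 1) * (a + b + 2) ^ 4 -
        6 * (a + 1) * (b + 1) * (a + b + 1) ^ 3 + (a + b + 2) ^ 2 * (a + b + 1) ^ 3) =
      8 * a ^ 4 * b ^ 0 + 17 * a ^ 3 * b ^ 1 + 34 * a ^ 3 * b ^ 0 + 15 * a ^ 2 * b ^ 2 +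
      53 * a ^ 2 * b ^ 1 + 54 * a ^ 2 * b ^ 0 + 11 * a ^ 1 * b ^ 3 + 36 * a ^ 1 * b ^ 2 +
      54 * a ^ 1 * b ^ 1 + 38 * a ^ 1 * b ^ 0 + 5 * a ^ 0 * b ^ 4 + 17 * a ^ 0 * b ^ 3 +
      22 * a ^ 0 * b ^ 2 + 18 * a ^ 0 * b ^ 1 + 10 * a ^ 0 * b ^ 0 := by ring
    rw [h]
    positivity

/-- The sums of the rows. -/
noncomputable def kb (n L : ℕ) : ℝ := ∑ m ∈ Icc 1 L, kap n m

lemma kb_sub {n : ℕ} (hn : 1 ≤ n) (L : ℕ) :
    |kb n L - Fm n L| ≤ 1 / 2 * (1 / (n : ℝ) ^ 2 - 1 / ((n : ℝ) + L) ^ 2) := by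
  obtain ⟨k, rfl⟩ := Nat.exists_eq_add_of_le' hn
  induction L with
  | zero =>
    simp [kb, Fm]
  | succ L ih =>
    have h1 : kb (k + 1) (L + 1) = kb (k + 1) L + kap (k + 1) (L + 1) := by
      unfold kb
      rw [Finset.sum_Icc_succ_top (by omega)]
    have h2 := step (a := (k : ℝ)) (b := (L : ℝ)) (Nat.cast_nonneg k) (Nat.cast_nonneg L)
    have h3 : kap (k + 1) (L + 1) = 3 / 2 * (((k : ℝ) + 1) * ((L : ℝ) + 1)) /
        (((k : ℝ) + 1) + ((L : ℝ) + 1)) ^ 4 -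
        1 / (4 * (((k : ℝ) + 1) + ((L : ℝ) + 1)) ^ 2) := by
      unfold kap
      push_cast
      ring
    rw [← h3] at h2
    push_cast at ih ⊢
    rw [h1]
    have h4 : kb (k + 1) L + kap (k + 1) (L + 1) - Fm ((k : ℝ) + 1) ((L : ℝ) + 1) =
        (kb (k + 1) L - Fm ((k : ℝ) + 1) (L : ℝ)) +
        (kap (k + 1) (L + 1) - (Fm ((k : ℝ) + 1) ((L : ℝ) + 1) - Fm ((k : ℝ) + 1) (L : ℝ))) := by
      ring
    rw [h4]
    refine (abs_add_le _ _).trans ?_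
    have h5 : 1 / (((k : ℝ) + 1) + ((L : ℝ) + 1)) ^ 3 ≤
        1 / 2 * (1 / ((k : ℝ) + 1 + L) ^ 2 - 1 / ((k : ℝ) + 1 + (L + 1)) ^ 2) := by
      have ht : (0 : ℝ) < (k : ℝ) + 1 + L := by positivity
      have e : (k : ℝ) + 1 + (L + 1) = ((k : ℝ) + 1 + L) + 1 := by ring
      rw [e]
      generalize (k : ℝ) + 1 + L = t at ht
      rw [← sub_nonneg]
      have h6 : 1 / 2 * (1 / t ^ 2 - 1 / (t + 1) ^ 2) - 1 / (t + 1) ^ 3 =
          (3 * t + 1) / (2 * t ^ 2 * (t + 1) ^ 3) := by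
        field_simp
        ring
      rw [h6]
      positivity
    linarith

lemma Fm_le (n : ℕ) {L : ℕ} (hL : 1 ≤ L) : |Fm n L| ≤ 1 / (4 * (L : ℝ)) := by
  have hL' : (0 : ℝ) < L := by exact_mod_cast hL
  have hn : (0 : ℝ) ≤ n := Nat.cast_nonneg n
  unfold Fm
  rw [abs_div, abs_mul, abs_of_pos hL', abs_of_pos (a := 4 * ((n : ℝ) + L) ^ 3) (by positivity),
    div_le_div_iff₀ (by positivity) (by positivity)]
  have h1 : |(L : ℝ) - n| ≤ n + L := by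
    rw [abs_le]
    constructor <;> linarith
  have h2 : (L : ℝ) * L ≤ ((n : ℝ) + L) ^ 2 := by nlinarith
  calc (L : ℝ) * |(L : ℝ) - n| * (4 * L) = 4 * ((L : ℝ) * L) * |(L : ℝ) - n| := by ring
    _ ≤ 4 * ((n : ℝ) + L) ^ 2 * (n + L) :=
        mul_le_mul (by linarith) h1 (abs_nonneg _) (by positivity)
    _ = 1 * (4 * ((n : ℝ) + L) ^ 3) := by ring

lemma sum_sq (L : ℕ) : ∑ n ∈ Icc 1 L, 1 / (n : ℝ) ^ 2 ≤ 2 - 1 / (L : ℝ) := by
  induction L with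
  | zero => simp
  | succ L ih =>
    rw [Finset.sum_Icc_succ_top (by omega)]
    rcases Nat.eq_zero_or_pos L with h | h
    · subst h
      norm_num
    · have h1 : (0 : ℝ) < L := by exact_mod_cast h
      push_cast
      have h2 : 1 / ((L : ℝ) + 1) ^ 2 ≤ 1 / (L : ℝ) - 1 / ((L : ℝ) + 1) := by
        rw [← sub_nonneg]
        have h3 : 1 / (L : ℝ) - 1 / ((L : ℝ) + 1) - 1 / ((L : ℝ) + 1) ^ 2 =
            1 / ((L : ℝ) * (L + 1) ^ 2) := by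
          field_simp
          ring
        rw [h3]
        positivity
      linarith

lemma sum_kb (L : ℕ) : ∑ n ∈ Icc 1 L, |kb n L| ≤ 5 / 4 := by
  rcases Nat.eq_zero_or_pos L with h | h
  · subst h
    simp
    norm_num
  · have h1 : (0 : ℝ) < L := by exact_mod_cast h
    have h2 : ∀ n ∈ Icc 1 L, |kb n L| ≤ 1 / 2 * (1 / (n : ℝ) ^ 2) + 1 / (4 * (L : ℝ)) := by
      intro n hn
      have hn1 := (Finset.mem_Icc.1 hn).1
      have h3 := kb_sub hn1 L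
      have h4 := Fm_le n h
      have h5 : kb n L = (kb n L - Fm n L) + Fm n L := by ring
      have h6 : 0 ≤ 1 / ((n : ℝ) + L) ^ 2 := by positivity
      have h7 := abs_add_le (kb n L - Fm n L) (Fm n L)
      rw [← h5] at h7
      linarith
    refine (Finset.sum_le_sum h2).trans ?_
    rw [Finset.sum_add_distrib, ← Finset.mul_sum, Finset.sum_const, Nat.card_Icc, nsmul_eq_mul]
    have h8 := sum_sq L
    have h9 : ((L + 1 - 1 : ℕ) : ℝ) * (1 / (4 * (L : ℝ))) = 1 / 4 := by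
      rw [Nat.add_sub_cancel]
      field_simp
    rw [h9]
    have h10 : 0 ≤ 1 / (L : ℝ) := by positivity
    linarith

lemma kap_symm (n m : ℕ) : kap n m = kap m n := by
  unfold kap
  rw [mul_comm (n : ℝ) m, add_comm (n : ℝ) m]

theorem vc_main : VC_stmt := by
  intro K
  refine ⟨2 * ((7 / 2 * K + 49 / 8) * (5 / 4)), ?_⟩
  intro u L hu
  have h1 : ∑ n ∈ Icc 1 L, ∑ m ∈ Icc 1 L, u n * u m * kap n m =
      ∑ n ∈ Icc 1 L, ∑ m ∈ Icc 1 L, (u n - 7 / 2) * (u m - 7 / 2) * kap n m +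
      ∑ n ∈ Icc 1 L, (7 / 2 * u n - 49 / 8) * kb n L +
      ∑ n ∈ Icc 1 L, (7 / 2 * u n - 49 / 8) * kb n L := by
    have h2 : ∑ n ∈ Icc 1 L, (7 / 2 * u n - 49 / 8) * kb n L =
        ∑ n ∈ Icc 1 L, ∑ m ∈ Icc 1 L, (7 / 2 * u n - 49 / 8) * kap n m :=
      Finset.sum_congr rfl fun n _ => by rw [kb, Finset.mul_sum]
    have h3 : ∑ n ∈ Icc 1 L, ∑ m ∈ Icc 1 L, (7 / 2 * u n - 49 / 8) * kap n m =
        ∑ n ∈ Icc 1 L, ∑ m ∈ Icc 1 L, (7 / 2 * u m - 49 / 8) * kap n m := by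
      rw [Finset.sum_comm]
      refine Finset.sum_congr rfl fun n _ => Finset.sum_congr rfl fun m _ => ?_
      rw [kap_symm]
    conv_rhs => rw [h2]
    conv_rhs => arg 2; rw [h3]
    rw [← Finset.sum_add_distrib, ← Finset.sum_add_distrib]
    refine Finset.sum_congr rfl fun n _ => ?_
    rw [← Finset.sum_add_distrib, ← Finset.sum_add_distrib]
    refine Finset.sum_congr rfl fun m _ => ?_
    ring
  have h4 : ∑ n ∈ Icc 1 L, (7 / 2 * u n - 49 / 8) * kb n L ≤ (7 / 2 * K + 49 / 8) * (5 / 4) := by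
    have h5 : ∀ n ∈ Icc 1 L, (7 / 2 * u n - 49 / 8) * kb n L ≤ (7 / 2 * K + 49 / 8) * |kb n L| := by
      intro n _
      obtain ⟨h6, h7⟩ := hu n
      have h8 : |7 / 2 * u n - 49 / 8| ≤ 7 / 2 * K + 49 / 8 := by
        rw [abs_le]
        constructor <;> linarith
      calc (7 / 2 * u n - 49 / 8) * kb n L ≤ |(7 / 2 * u n - 49 / 8) * kb n L| := le_abs_self _
        _ = |7 / 2 * u n - 49 / 8| * |kb n L| := abs_mul _ _
        _ ≤ _ := mul_le_mul_of_nonneg_right h8 (abs_nonneg _)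
    refine (Finset.sum_le_sum h5).trans ?_
    rw [← Finset.mul_sum]
    exact mul_le_mul_of_nonneg_left (sum_kb L) (by positivity)
  rw [h1]
  linarith

end Pool.Agent.W369.ET
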